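import Pool.Agent.Results.MP_a06248_ag.FlipsWithoutFactoriality
import Pool.Agent.Run7.h530.FI.Desc

/-!
# Termination of flips without `ℚ`-factoriality for the images of covers of products of projective
spaces

Let `K` be the function field of an abelian cover `Y` of a product of projective spaces which is
branched along smooth hypersurfaces of the factors, and `X` a toroidal modification of `Y`, given by a
fan, as in the starting result `MP_a06248_ag.FlipsWithoutFactoriality`, whose definitions are used
here.

We consider the varieties `X_0` with a dominant, generically finite rational map `X ⇢ X_0`, for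
instance the quotients of `X` by ANY finite groups of automorphisms (permutations of equal factors,
automorphisms of the forms `F i`, ...): the function field `K0` of `X_0` is a subfield of `K` and
`K / K0` is finite. On `X_0` there are given divisors `D 1, ..., D p` with the coefficients `δ i P` of
their pullbacks at the prime divisors `P` over `X_0`; a common multiple of the `D i` is Cartier. We
assume that the pullback of `D i` to the models of `K` is the sum of a toroidal divisor on `X` and of
the divisor of a rational function `g i`: the coefficient of the pullback at a prime divisor `Q` over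
`P` with the ramification index `e` is `e * δ i P`. If all `n i ≥ 3` and `X_0` is `ℚ`-factorial, this can
be achieved for divisors `D i` which generate the divisor classes of `X_0` up to multiples, since then
all divisors on `X` are toroidal up to linear equivalence and multiples (Lefschetz; this remark is not
used and not proved here).

The models `X'` of `X_0` (`IsModel`) are those of the starting result: normal projective `ℚ`-Gorenstein
varieties `X'`, perhaps not `ℚ`-factorial, with a birational map `X_0 ⇢ X'` whose inverse contracts no
divisor, such that the prime divisors on `X_0` which it contracts have nonnegative discrepancies on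
`X'`; `k P` are the coefficients of the pullback of the divisor `∑ i, κ i * D i`, which is `K_X` on `X'`.

**The theorem.** There is a number `B` such that for every combination `κ`, among any `B + 1` models
there are two with the same discrepancies, and every sequence of models in which no discrepancy
decreases and at least one increases in every step has less than `B` steps. So let `X'_0` be a projective
`ℚ`-Gorenstein variety with terminal singularities with a small birational map `X_0 ⇢ X'_0`, `X_0`
`ℚ`-factorial, and all `n i ≥ 3`: then every sequence of flips in the sense of the problem which starts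
at `X'_0` is finite. The starting result is the case `X_0 = X`.

**The proof.** The ring of the sections of the integral combinations of the pullbacks is finitely
generated by the theorem of the starting tree. It is integral over the ring of the sections of the
integral combinations of the `D i` on `X_0`: if `f` is a section of the pullback of `D`, then the
coefficients of the minimal polynomial of `f ^ M` over `K0` are sections of multiples of `D`, since `f`
has bounded poles at all places over a place of `K0` (`coef_sec`). By the lemma of Artin and Tate the
latter ring is finitely generated (`fg_desc`), and the theorem of the starting tree on rings of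
sections applies (`term_dir`).
-/

set_option autoImplicit false

open FF MvPolynomial Pool.Agent.W602.GT
open Pool.Agent.Results.MP_a06248_ag.FlipsWithoutFactoriality

namespace Pool.Agent.Results.MP_a06248_ag.FiniteImages

/-- **Termination of flips without `ℚ`-factoriality.** Let `K` be the function field of an abelian
cover `Y` of the product of the projective `n i`-spaces which is branched along smooth hypersurfaces
`F i = 0` of the factors, and `X` the toroidal modification of `Y` which is given by `fan`. Let `K0` be
a subfield of `K` over which `K` is finite, and let `D i`, `i < p`, be divisors with the coefficients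
`δ i` over `K0`, a multiple `M * D i` of which is Cartier, such that the pullback of `D i` to `K` is the
sum of the toroidal divisor on `X` with the degrees `β i t` and the coefficients `c i` and of the
divisor of the function `g i`. There is a number `B` such that for every rational combination `κ`:
(1) among any `B + 1` models there are two with the same coefficients `k P` at all prime divisors `P`
over `K0`;
(2) every sequence of models in which no coefficient `k P` increases and some coefficient becomes
smaller in every step (no discrepancy decreases and some discrepancy becomes larger) has less than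
`B` steps. -/
theorem result (r N R p : ℕ) (n d : Fin r → ℕ) (hr : 1 ≤ r) (hn : ∀ i, 1 ≤ n i)
    (hd : ∀ i, 1 ≤ d i) (hN : N = ∑ i, n i)
    (F : ∀ i, MvPolynomial (Fin (n i + 1)) ℂ) (hF : ∀ i, (F i).IsHomogeneous (d i))
    (hs : ∀ i, Smooth (F i)) (m : Fin R → ℕ) (hm : ∀ j, 1 ≤ m j) (a : Fin R → Fin r → ℕ)
    (hdiv : ∀ j i, m j ∣ a j i * d i)
    (K : Type) [Field K] [Algebra ℂ K] (x : ∀ i, Fin (n i + 1) → K) (hx0 : ∀ i, x i 0 ≠ 0)
    (hbas : IsTranscendenceBasis ℂ (affine x)) (z : Fin R → K)
    (hz : ∀ j, z j ^ m j = ∏ i, (aeval (x i) (F i) / x i 0 ^ d i) ^ a j i)
    (hgen : IntermediateField.adjoin ℂ (Set.range (affine x) ∪ Set.range z) = ⊤)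
    (fan : Finset (Finset (Fin r → ℕ))) (hfan : IsFan m a fan)
    (c : Fin p → (Fin r → ℕ) → ℚ) (hc0 : ∀ i, c i 0 = 0) (β : Fin p → Fin r → ℤ)
    (u : Finset (Fin r → ℕ) → Fin p → Fin r → ℚ)
    (hlin : ∀ σ ∈ fan, ∀ i v, Admissible m a v → InCone σ v → - c i v = ∑ k, u σ i k * v k)
    (K0 : Type) [Field K0] [Algebra ℂ K0] [Algebra K0 K] [IsScalarTower ℂ K0 K]
    [FiniteDimensional K0 K] (δ : Fin p → Place ℂ K0 → ℚ) (M : ℕ) (hM : 1 ≤ M)
    (hint : ∀ i P, Divisorial N P → ∃ b : ℤ, (M : ℚ) * δ i P = b)
    (g : Fin p → K) (hg : ∀ i, g i ≠ 0)
    (hδ : ∀ (i : Fin p) (Q : Place ℂ K) (P : Place ℂ K0) (e : ℕ), Over Q P e → Divisorial N Q →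
      (e : ℚ) * δ i P = coefficient F d x (c i) (β i) Q + Q.ord (g i)) :
    ∃ B : ℕ, ∀ κ : Fin p → ℚ,
      (∀ (lam : Fin (B + 1) → Fin p → ℚ) (α k : Fin (B + 1) → Place ℂ K0 → ℚ),
        (∀ j, IsModel N δ κ (lam j) (α j) (k j)) →
        ∃ j j' : Fin (B + 1), j < j' ∧ ∀ P : Place ℂ K0, Divisorial N P → k j P = k j' P) ∧
      ∀ (L : ℕ) (lam : ℕ → Fin p → ℚ) (α k : ℕ → Place ℂ K0 → ℚ),
        (∀ j ≤ L, IsModel N δ κ (lam j) (α j) (k j)) →
        (∀ j < L, (∀ P : Place ℂ K0, Divisorial N P → k (j + 1) P ≤ k j P) ∧
          ∃ P : Place ℂ K0, Divisorial N P ∧ k (j + 1) P < k j P) → L < B := by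
  have hfg := Pool.Agent.Q57.CX.main_cox (N := N) hr hn hN hd hF hs hx0 hbas hm hdiv hz hgen
    (S := fan) ⟨hfan.adm, hfan.full, hfan.cover⟩ hc0 (u := u) hlin (β := β)
    (δ := fun i P => coefficient F d x (c i) (β i) P) (fun _ _ => rfl)
  exact Pool.Agent.Q57.HK.term_dir
    (Run7.h530.FI.fg_desc hg (fun i Q P e h hQ => hδ i Q P e h hQ) hM hint hfg)

end Pool.Agent.Results.MP_a06248_ag.FiniteImages
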