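import Pool.Agent.Run7.h528.MB.Model

/-!
The finite images, for instance the quotients by finite groups, of varieties with an abelian group of
automorphisms of rank `ρ - k` and `k` invariant blocks of divisor classes have no birational
contractions, and so no flips.
-/

set_option autoImplicit false

open FF Pool.Agent.W602.GT Pool.Agent.Y172 Pool.Agent.R887 Pool.Agent.N110 Pool.Agent.N110.CC
open Pool.Agent.N110.DV Run7.h528.MB

/-- Let `X'` be a normal projective variety of dimension `n ≥ 1`, with generic point `y'`. Let the
vectors `c' P` be the classes of the prime divisors in `N¹(X') = ℤ ^ ρ` (if `X'` is `ℚ`-factorial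
then `ρ` is the Picard number of `X'`). Let `ℤ ^ r`, `r ≥ 1`, act on `X'` by automorphisms `f_v`,
given by the automorphisms `φ v = f_v^*` of the function field, and suppose that `f_v` has positive
entropy (the first dynamical degree is greater than `1`) for all `v ≠ 0`. Suppose that `N¹(X')`
contains with finite index a direct sum `Λ_1 ⊕ … ⊕ Λ_k` of groups of rank at least `2` such that
`f_v^*` maps each `Λ_i` into itself, and that `r = ρ - k`. (The classes `u j` are a basis of the sum,
and `u j` is in `Λ_i` for `i = β j`.) Let `X'` have irregularity zero (`IrregularityZero`).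

Let `X' → X` be a finite morphism onto a normal projective variety `X`, for instance `X = X'` or the
quotient by a finite group, given by the homomorphism `π` of the function fields (more generally, a
morphism which is finite in codimension one; it has nothing to do with the maps `f_v`). `X` need not
be `ℚ`-factorial. Then:

(1) every birational morphism `X → Z` onto a normal projective variety `Z` is an isomorphism: if the
local rings of `Z` are contained in the local rings of `X`, at the centres of all places of the
function field, then they are equal, at the centres of all divisors over `X`;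

(2) if `X` is `ℚ`-factorial then every birational map `X ⇢ Z` onto a normal projective variety `Z`
whose inverse contracts no divisor (the prime divisors of `Z` are prime divisors of `X`), for
instance every small birational map, is an isomorphism;

(3) if `X` is `ℚ`-Gorenstein and `K_X` is pseudo-effective then `K_X` is nef.

So `X` has no flips in the sense of the problem (a flip of `X` starts with a birational contraction
`X → Y`, perhaps not small, such that `Y` is not `ℚ`-Gorenstein): every sequence of flips which starts
from `X` has length zero. -/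
theorem Pool.Agent.Results.MP_a06248_ag.ImagesWithoutFlips.result
    {K' : Type} [Field K'] [Algebra ℂ K'] {N' n r k ρ : ℕ} {y' : Fin (N' + 1) → K'}
    (hy' : NormalModel y') (hn' : Algebra.trdeg ℂ K' = n) (hn0 : 0 < n) (hr : 0 < r)
    {c' : Place ℂ K' → Fin ρ → ℤ} (hc' : PicardBasis y' c') (hq : IrregularityZero y')
    {φ : (Fin r → ℤ) → (K' ≃ₐ[ℂ] K')} (hφ : ∀ u v, φ (u + v) = φ u * φ v)
    (haut : ∀ v, IsAut (φ v) y') (hent : ∀ v, v ≠ 0 → 1 < dynDegree (φ v) y' n 1)
    {u : Fin ρ → Fin ρ → ℤ} (hu : LinearIndependent ℝ (fun j i => (u j i : ℝ)))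
    {β : Fin ρ → Fin k} (hβ : ∀ i, ∃ j j', j ≠ j' ∧ β j = i ∧ β j' = i) (hρ : ρ = r + k)
    (hbl : ∀ v, PreservesBlocks y' c' u β (φ v))
    (K : Type) [Field K] [Algebra ℂ K] (N : ℕ) (y : Fin (N + 1) → K) (π : K →ₐ[ℂ] K')
    (hy : NormalModel y) (hn : Algebra.trdeg ℂ K = n) (hmor : IsMorphism π y y')
    (hπ : FiniteMap π y y') :
    (∀ (M : ℕ) (z : Fin (M + 1) → K), NormalModel z →
      (∀ P : Place ℂ K, localRing z P ⊆ localRing y P) →
        ∀ R, Divisorial n R → localRing z R = localRing y R) ∧
    ((∀ D : Place ℂ K → ℤ, IsDiv y D → IsQCartier y n D) →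
      ∀ (M : ℕ) (z : Fin (M + 1) → K), NormalModel z →
        (∀ P, IsPrimeDivisor z P → IsPrimeDivisor y P) →
          ∀ R, Divisorial n R → localRing z R = localRing y R) ∧
    ∀ (x : Fin n → K) (E : Fin n → Derivation ℂ K K) (κ : Place ℂ K → ℤ), Can y x E κ →
      IsQCartier y n κ → PsefD y (fun P => (κ P : ℚ)) → NefD y n (fun P => (κ P : ℚ)) := by
  obtain ⟨hnef, -⟩ :=
    no_flips hy' hn' hn0 hr hc' hq hφ haut hent hu hβ hρ hbl K N y π hy hn hmor hπ
  have hbig : ∀ L : Place ℂ K → ℤ, IsDiv y L → IsQCartier y n L →
      BigD y (fun P => (L P : ℚ)) → IsAmple y n L := fun L hL hC => ample_of_big hy hnef hL hC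
  exact ⟨fun M z hz h R hR => maps_iso hy hbig hz (Or.inl h) R hR,
    fun hQ M z hz h R hR => maps_iso hy hbig hz (Or.inr ⟨h, hQ⟩) R hR,
    fun x E κ hκ hC hps => hnef κ hκ.fin hC hps⟩
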